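import Pool.Agent.H25.MF.Targets

/-!
Module RB of the board for `MP_118735_nt`: bounds for `R` and growth of `gf`.
-/

set_option autoImplicit false

open Complex MeasureTheory Filter Topology

namespace Pool.Agent.H94.MF

open Pool.Agent.H25.MF

theorem continuous_R (h : ∀ y : ℝ, Summable (fun n : ℕ => |r n * y ^ (2 * n)|)) :
    Continuous R := by
  rw [continuous_iff_continuousAt]
  intro y₀
  have hB : ContinuousOn R (Set.Icc (-(|y₀| + 1)) (|y₀| + 1)) := by
    unfold R
    refine continuousOn_tsum (u := fun n : ℕ => |r n * (|y₀| + 1) ^ (2 * n)|) ?_ (h _) ?_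
    · intro n
      fun_prop
    · intro n y hy
      rw [Real.norm_eq_abs, abs_mul, abs_mul]
      refine mul_le_mul_of_nonneg_left ?_ (abs_nonneg _)
      rw [abs_pow, abs_pow]
      refine pow_le_pow_left₀ (abs_nonneg _) ?_ _
      have : 0 ≤ |y₀| + 1 := by positivity
      rw [abs_of_nonneg this]
      exact abs_le.2 hy
  refine hB.continuousAt (Icc_mem_nhds ?_ ?_)
  · have := neg_abs_le y₀
    linarith
  · have := le_abs_self y₀
    linarith

theorem abs_mu (m : ℕ) : |((ArithmeticFunction.moebius m : ℤ) : ℝ)| ≤ 1 := by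
  have := ArithmeticFunction.abs_moebius_le_one (n := m)
  have h2 : ((|ArithmeticFunction.moebius m| : ℤ) : ℝ) ≤ ((1 : ℤ) : ℝ) := by exact_mod_cast this
  simpa using h2

theorem bound_gen (y : ℝ) (u : ℕ → ℝ) (hu : Summable u)
    (hs : HasSum (fun m : ℕ => ((ArithmeticFunction.moebius m : ℤ) : ℝ) / m *
      Cin (2 * Real.pi * y / m)) (R y / 2))
    (hb : ∀ m : ℕ, 1 ≤ m → |Cin (2 * Real.pi * y / m)| / m ≤ u m) (h0 : 0 ≤ u 0) :
    |R y| ≤ 2 * ∑' m, u m := by
  have hle : ∀ m : ℕ, ‖((ArithmeticFunction.moebius m : ℤ) : ℝ) / m *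
      Cin (2 * Real.pi * y / m)‖ ≤ u m := by
    intro m
    rcases Nat.eq_zero_or_pos m with h | h
    · subst h
      simpa using h0
    · rw [Real.norm_eq_abs, abs_mul, abs_div]
      have hm : (0 : ℝ) < m := by exact_mod_cast h
      rw [abs_of_pos hm]
      refine le_trans ?_ (hb m h)
      rw [div_mul_eq_mul_div]
      refine div_le_div_of_nonneg_right ?_ hm.le
      calc _ ≤ 1 * |Cin (2 * Real.pi * y / m)| :=
            mul_le_mul_of_nonneg_right (abs_mu m) (abs_nonneg _)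
        _ = _ := one_mul _
  have h1 := tsum_of_norm_bounded hu.hasSum hle
  rw [hs.tsum_eq, Real.norm_eq_abs, abs_div, abs_of_pos (by norm_num : (0 : ℝ) < 2)] at h1
  linarith

theorem bounds (hCN : T_CN) (hRS : T_RS) : ∃ C : ℝ, ∀ y : ℝ, 0 < y →
    |R y| ≤ C * y ^ (1 / 8 : ℝ) ∧ |R y| ≤ C * y ^ 2 := by
  obtain ⟨-, -, hpos, K, hK⟩ := hCN
  obtain ⟨-, hS⟩ := hRS
  have hpi := Real.pi_pos
  have s1 : Summable (fun m : ℕ => (m : ℝ) ^ (-(9 / 8) : ℝ)) :=
    Real.summable_nat_rpow.2 (by norm_num)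
  have s2 : Summable (fun m : ℕ => (1 : ℝ) / (m : ℝ) ^ 3) :=
    Real.summable_one_div_nat_pow.2 (by norm_num)
  set A : ℝ := 2 * (|K| * (2 * Real.pi) ^ (1 / 8 : ℝ) * ∑' m : ℕ, (m : ℝ) ^ (-(9 / 8) : ℝ))
    with hA
  set B : ℝ := 2 * (Real.pi ^ 2 * ∑' m : ℕ, (1 : ℝ) / (m : ℝ) ^ 3) with hB
  refine ⟨max A B, fun y hy => ⟨?_, ?_⟩⟩
  · have hy8 : 0 ≤ y ^ (1 / 8 : ℝ) := Real.rpow_nonneg hy.le _
    refine le_trans ?_ (mul_le_mul_of_nonneg_right (le_max_left A B) hy8)
    have h := bound_gen y (fun m : ℕ => |K| * (2 * Real.pi) ^ (1 / 8 : ℝ) * y ^ (1 / 8 : ℝ) *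
      (m : ℝ) ^ (-(9 / 8) : ℝ)) (s1.mul_left _) (hS y hy) ?_ ?_
    · refine h.trans_eq ?_
      rw [tsum_mul_left, hA]
      ring
    · intro m hm
      have hm0 : (0 : ℝ) < m := by exact_mod_cast hm
      have hw : 0 ≤ 2 * Real.pi * y / m := by positivity
      have h1 := hK _ hw
      rw [abs_of_nonneg (hpos _ hw).1]
      have h2 : Cin (2 * Real.pi * y / m) ≤ |K| * (2 * Real.pi * y / m) ^ (1 / 8 : ℝ) :=
        h1.trans (mul_le_mul_of_nonneg_right (le_abs_self K) (Real.rpow_nonneg hw _))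
      rw [div_le_iff₀ hm0]
      refine h2.trans_eq ?_
      rw [Real.div_rpow (by positivity) hm0.le, Real.mul_rpow (by positivity) hy.le]
      have h3 : (m : ℝ) ^ (-(9 / 8) : ℝ) * m = ((m : ℝ) ^ (1 / 8 : ℝ))⁻¹ := by
        rw [← Real.rpow_neg hm0.le]
        nth_rewrite 2 [← Real.rpow_one (m : ℝ)]
        rw [← Real.rpow_add hm0]
        norm_num
      rw [mul_assoc (|K| * (2 * Real.pi) ^ (1 / 8 : ℝ) * y ^ (1 / 8 : ℝ)), h3]
      ring
    · positivity
  · have hy2 : 0 ≤ y ^ 2 := by positivity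
    refine le_trans ?_ (mul_le_mul_of_nonneg_right (le_max_right A B) hy2)
    have h := bound_gen y (fun m : ℕ => Real.pi ^ 2 * y ^ 2 * ((1 : ℝ) / (m : ℝ) ^ 3))
      (s2.mul_left _) (hS y hy) ?_ ?_
    · refine h.trans_eq ?_
      rw [tsum_mul_left, hB]
      ring
    · intro m hm
      have hm0 : (0 : ℝ) < m := by exact_mod_cast hm
      have hw : 0 ≤ 2 * Real.pi * y / m := by positivity
      rw [abs_of_nonneg (hpos _ hw).1, div_le_iff₀ hm0]
      refine (hpos _ hw).2.trans_eq ?_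
      field_simp
      ring
    · positivity

theorem M_meas : Measurable M := by
  have : M = (fun n : ℕ => ∑ k ∈ Finset.Icc 1 n, ((ArithmeticFunction.moebius k : ℤ) : ℝ)) ∘
      (fun x : ℝ => ⌊x⌋₊) := rfl
  rw [this]
  exact (measurable_of_countable _).comp Nat.measurable_floor

theorem M_abs (x : ℝ) (hx : 0 ≤ x) : |M x| ≤ x := by
  unfold M
  calc |∑ n ∈ Finset.Icc 1 ⌊x⌋₊, ((ArithmeticFunction.moebius n : ℤ) : ℝ)|
      ≤ ∑ n ∈ Finset.Icc 1 ⌊x⌋₊, |((ArithmeticFunction.moebius n : ℤ) : ℝ)| :=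
        Finset.abs_sum_le_sum_abs _ _
    _ ≤ ∑ n ∈ Finset.Icc 1 ⌊x⌋₊, (1 : ℝ) := Finset.sum_le_sum fun n _ => abs_mu n
    _ = (⌊x⌋₊ : ℝ) := by simp
    _ ≤ x := Nat.floor_le hx

theorem M_zero (x : ℝ) (hx : x < 1) : M x = 0 := by
  unfold M
  have : ⌊x⌋₊ = 0 := Nat.floor_eq_zero.2 hx
  rw [this]
  simp

theorem gr_gf (hc : Continuous R) (hb : ∃ C : ℝ, ∀ y : ℝ, 0 < y →
    |R y| ≤ C * y ^ (1 / 8 : ℝ) ∧ |R y| ≤ C * y ^ 2) : Gr gf := by
  obtain ⟨C, hC⟩ := hb
  have hC0 : 0 ≤ C := by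
    have := (hC 1 one_pos).2
    have h2 := abs_nonneg (R 1)
    simp at this
    linarith
  refine ⟨?_, C + 3, ?_⟩
  · unfold gf N
    have h1 : Measurable (fun v : ℝ => M (Real.exp v)) := M_meas.comp Real.measurable_exp
    have h2 : Measurable (fun v : ℝ => R (1 / Real.exp v)) := by
      refine (hc.comp ?_).measurable
      exact continuous_const.div Real.continuous_exp fun v => (Real.exp_pos v).ne'
    have h3 : Measurable (fun v : ℝ => Real.exp (-(v / 2))) := by fun_prop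
    exact ((h1.add_const 2).sub h2).mul h3
  · intro v
    unfold gf N
    rw [abs_mul, abs_of_pos (Real.exp_pos (-(v / 2)))]
    have hinv : 1 / Real.exp v = Real.exp (-v) := by rw [Real.exp_neg, one_div]
    rw [hinv]
    have hR := hC (Real.exp (-v)) (Real.exp_pos _)
    rcases le_or_gt 0 v with hv | hv
    · have e1 : 1 ≤ Real.exp v := Real.one_le_exp hv
      have e2 : Real.exp (-v) ^ 2 ≤ 1 := by
        have : Real.exp (-v) ≤ 1 := Real.exp_le_one_iff.2 (by linarith)
        exact pow_le_one₀ (Real.exp_pos _).le this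
      have e3 : |R (Real.exp (-v))| ≤ C := by
        refine hR.2.trans ?_
        nlinarith
      have e4 := M_abs (Real.exp v) (Real.exp_pos v).le
      have e5 : |M (Real.exp v) + 2 - R (Real.exp (-v))| ≤ (C + 3) * Real.exp v := by
        have a1 := abs_sub (M (Real.exp v) + 2) (R (Real.exp (-v)))
        have a2 := abs_add_le (M (Real.exp v)) 2
        have a3 : |(2 : ℝ)| = 2 := abs_of_pos (by norm_num)
        rw [a3] at a2
        nlinarith
      calc _ ≤ (C + 3) * Real.exp v * Real.exp (-(v / 2)) :=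
            mul_le_mul_of_nonneg_right e5 (Real.exp_pos _).le
        _ = (C + 3) * Real.exp (v / 2) := by
            rw [mul_assoc, ← Real.exp_add]
            congr 2
            ring
        _ ≤ (C + 3) * Real.exp (5 / 8 * |v|) := by
            refine mul_le_mul_of_nonneg_left (Real.exp_le_exp.2 ?_) (by linarith)
            rw [abs_of_nonneg hv]
            linarith
    · have hM : M (Real.exp v) = 0 := M_zero _ (Real.exp_lt_one_iff.2 hv)
      rw [hM, zero_add]
      have e1 : Real.exp (-v) ^ (1 / 8 : ℝ) = Real.exp (-v / 8) := by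
        rw [← Real.exp_mul]
        congr 1
        ring
      have e2 : |R (Real.exp (-v))| ≤ C * Real.exp (-v / 8) := by
        rw [← e1]
        exact hR.1
      have e3 : 1 ≤ Real.exp (-v / 8) := Real.one_le_exp (by linarith)
      have e4 : |2 - R (Real.exp (-v))| ≤ (C + 3) * Real.exp (-v / 8) := by
        have a1 := abs_sub 2 (R (Real.exp (-v)))
        have a3 : |(2 : ℝ)| = 2 := abs_of_pos (by norm_num)
        rw [a3] at a1
        nlinarith
      calc _ ≤ (C + 3) * Real.exp (-v / 8) * Real.exp (-(v / 2)) :=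
            mul_le_mul_of_nonneg_right e4 (Real.exp_pos _).le
        _ = (C + 3) * Real.exp (5 / 8 * |v|) := by
            rw [mul_assoc, ← Real.exp_add, abs_of_neg hv]
            congr 2
            ring

theorem pf_RB (hCN : T_CN) (hRS : T_RS) : T_RB := by
  have hc := continuous_R hRS.1
  have hb := bounds hCN hRS
  exact ⟨hc, hb, gr_gf hc hb⟩

end Pool.Agent.H94.MF
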