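import Pool.Agent.H8.MC.GTargets
import Pool.Agent.H8.MF.CmL

/-!
# The number of the vertices
-/

set_option autoImplicit false

namespace Pool.Agent.H94.MF

open Pool.Agent.H8.MC Pool.Agent.H8.MF Pool.Agent.H69.VR Pool.Agent.H8.VR Pool.Agent.H69.Sp

theorem pf_NUM : Pool.Agent.H8.MC.T_NUM := by
  intro s Q U Hh Vv V _ G co rp lb ti h
  choose f hf1 hf2 using h.ex
  have hfib : ∀ x : {x // rp x}, ∀ v, (⟨f v, hf1 v⟩ : {x // rp x}) = x ↔ CmB G co s x.1 v := by
    rintro ⟨x, hx⟩ v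
    constructor
    · intro e
      have e1 : f v = x := congrArg Subtype.val e
      exact e1 ▸ hf2 v
    · intro e
      have e1 : CmB G co s x (f v) :=
        (cm_iff h.fr.bd _ _).1 (cm_trans (cmb_cm e) (cm_symm (cmb_cm (hf2 v))))
      exact Subtype.ext (h.u1 _ _ hx (hf1 v) e1).symm
  have : Fintype {x // rp x} := Fintype.ofFinite _
  rw [← Nat.card_congr (Equiv.sigmaFiberEquiv fun v => (⟨f v, hf1 v⟩ : {x // rp x})),
    Nat.card_sigma]
  have h1 : ∀ x : {x // rp x},
      Nat.card {v // (⟨f v, hf1 v⟩ : {x // rp x}) = x} = s := by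
    intro x
    rw [← h.sz x.1 x.2]
    exact (Nat.card_congr (Equiv.subtypeEquivRight (hfib x))).trans (Nat.card_coe_set_eq _)
  rw [Finset.sum_congr rfl fun x _ => h1 x, Finset.sum_const, Finset.card_univ, smul_eq_mul,
    Nat.card_eq_fintype_card, mul_comm]

end Pool.Agent.H94.MF
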