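import Pool.Agent.H8.MC.GTargets
import Pool.Agent.H35.MC.WTI

/-!
# From a tiling of a square and a model of the grid without further vertices to the rules
-/

set_option autoImplicit false

namespace Pool.Agent.H94.MF

open Pool.Agent.H8.MC Pool.Agent.H69.VR Pool.Agent.H8.VR Pool.Agent.H69.Sp Pool.Agent.H35.MC
open Pool.Agent.H8.PL (GridF Z_GR Z_SQ)

theorem pf_WTX : Pool.Agent.H8.MC.T_WTX := by
  intro Q U Hh Vv K V G π₀ hK hG ht
  obtain ⟨π, hπ⟩ : ∃ π : V → Option (Fin K × Fin K), π = fun v => some (π₀ v) := ⟨_, rfl⟩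
  rw [← hπ] at hG
  have hπv : ∀ v, π v = some (π₀ v) := fun v => by rw [hπ]
  obtain ⟨t, ht1, ht2, ht3⟩ := ht
  have hex : ∀ p, ∃ v, π v = some p := fun p => by
    obtain ⟨v⟩ := (hG.conn p).nonempty
    exact ⟨v.1, v.2⟩
  choose rep hrep using hex
  have hinj : Function.Injective rep := fun p q h => by
    have h1 := hrep p
    rw [h, hrep q] at h1
    exact (Option.some.inj h1).symm
  obtain ⟨rp, hrp⟩ : ∃ rp : V → Prop, rp = fun v => ∃ p, v = rep p := ⟨_, rfl⟩
  have hrpp : ∀ p, rp (rep p) := fun p => by rw [hrp]; exact ⟨p, rfl⟩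
  have hrpe : ∀ v, rp v → ∃ p, v = rep p := fun v h => by rw [hrp] at h; exact h
  have hE : ∀ p q, Ec G (col π) rp (rep p) (rep q) ↔ p.1.val + 1 = q.1.val ∧ p.2 = q.2 :=
    fun p q => ⟨fun h => (scE hG (hrep p) (hrep q)).1 h.2.2,
      fun h => ⟨hrpp p, hrpp q, (scE hG (hrep p) (hrep q)).2 h⟩⟩
  have hN : ∀ p q, Nc G (col π) rp (rep p) (rep q) ↔ p.1 = q.1 ∧ p.2.val + 1 = q.2.val :=
    fun p q => ⟨fun h => (scN hG (hrep p) (hrep q)).1 h.2.2,
      fun h => ⟨hrpp p, hrpp q, (scN hG (hrep p) (hrep q)).2 h⟩⟩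
  have hE' : ∀ x y, Ec G (col π) rp x y → ∃ p q, x = rep p ∧ y = rep q ∧
      p.1.val + 1 = q.1.val ∧ p.2 = q.2 := by
    intro x y h
    obtain ⟨p, rfl⟩ := hrpe _ h.1
    obtain ⟨q, rfl⟩ := hrpe _ h.2.1
    exact ⟨p, q, rfl, rfl, (hE p q).1 h⟩
  have hN' : ∀ x y, Nc G (col π) rp x y → ∃ p q, x = rep p ∧ y = rep q ∧
      p.1 = q.1 ∧ p.2.val + 1 = q.2.val := by
    intro x y h
    obtain ⟨p, rfl⟩ := hrpe _ h.1
    obtain ⟨q, rfl⟩ := hrpe _ h.2.1
    exact ⟨p, q, rfl, rfl, (hN p q).1 h⟩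
  refine ⟨col π, rp, lab π, til t π, ?_, ?_, ?_⟩
  · constructor
    · intro x y h
      obtain ⟨p, q, rfl, rfl, h1, h2⟩ := hE' x y h
      rw [lab_some (hrep p), lab_some (hrep q)]
      have h3 := q.1.isLt
      refine ⟨decide_eq_false (by omega), decide_eq_false (by omega), ?_, ?_⟩
      · show decide (p.2.val = 0) = decide (q.2.val = 0)
        rw [h2]
      · show decide (p.2.val + 1 = K) = decide (q.2.val + 1 = K)
        rw [h2]
    · intro x y h
      obtain ⟨p, q, rfl, rfl, h1, h2⟩ := hN' x y h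
      rw [lab_some (hrep p), lab_some (hrep q)]
      have h3 := q.2.isLt
      refine ⟨decide_eq_false (by omega), decide_eq_false (by omega), ?_, ?_⟩
      · show decide (p.1.val = 0) = decide (q.1.val = 0)
        rw [h1]
      · show decide (p.1.val + 1 = K) = decide (q.1.val + 1 = K)
        rw [h1]
    · intro x y y' h h'
      obtain ⟨p, q, rfl, rfl, h1, h2⟩ := hE' x y h
      obtain ⟨p', q', h3, rfl, h4, h5⟩ := hE' _ y' h'
      have h6 := hinj h3
      subst h6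
      congr 1
      exact Prod.ext (Fin.ext (by omega)) (h2.symm.trans h5)
    · intro x x' y h h'
      obtain ⟨p, q, rfl, rfl, h1, h2⟩ := hE' x y h
      obtain ⟨p', q', rfl, h3, h4, h5⟩ := hE' x' _ h'
      have h6 := hinj h3
      subst h6
      congr 1
      exact Prod.ext (Fin.ext (by omega)) (h2.trans h5.symm)
    · intro x y y' h h'
      obtain ⟨p, q, rfl, rfl, h1, h2⟩ := hN' x y h
      obtain ⟨p', q', h3, rfl, h4, h5⟩ := hN' _ y' h'
      have h6 := hinj h3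
      subst h6
      congr 1
      exact Prod.ext (h1.symm.trans h4) (Fin.ext (by omega))
    · intro x x' y h h'
      obtain ⟨p, q, rfl, rfl, h1, h2⟩ := hN' x y h
      obtain ⟨p', q', rfl, h3, h4, h5⟩ := hN' x' _ h'
      have h6 := hinj h3
      subst h6
      congr 1
      exact Prod.ext (h1.trans h4.symm) (Fin.ext (by omega))
    · intro x hx hr
      obtain ⟨p, rfl⟩ := hrpe _ hx
      rw [lab_some (hrep p)] at hr
      have h1 : p.1.val + 1 ≠ K := of_decide_eq_false hr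
      have h2 := p.1.isLt
      exact ⟨rep (⟨p.1.val + 1, by omega⟩, p.2), (hE _ _).2 ⟨rfl, rfl⟩⟩
    · intro x hx hr
      obtain ⟨p, rfl⟩ := hrpe _ hx
      rw [lab_some (hrep p)] at hr
      have h1 : p.2.val + 1 ≠ K := of_decide_eq_false hr
      have h2 := p.2.isLt
      exact ⟨rep (p.1, ⟨p.2.val + 1, by omega⟩), (hN _ _).2 ⟨rfl, rfl⟩⟩
    · refine ⟨rep (⟨0, hK⟩, ⟨0, hK⟩), hrpp _, ?_, ?_⟩
      · rw [lab_some (hrep _)]
        exact decide_eq_true (show (0 : ℕ) = 0 from rfl)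
      · rw [lab_some (hrep _)]
        exact decide_eq_true (show (0 : ℕ) = 0 from rfl)
    · intro x y z h h'
      obtain ⟨p, q, rfl, rfl, h1, h2⟩ := hE' x y h
      obtain ⟨p', s, h3, rfl, h4, h5⟩ := hN' _ z h'
      have h6 := hinj h3
      subst h6
      refine ⟨rep (q.1, s.2), (hE _ _).2 ⟨?_, rfl⟩, (hN _ _).2 ⟨rfl, ?_⟩⟩
      · show s.1.val + 1 = q.1.val
        rw [← h4, h1]
      · show q.2.val + 1 = s.2.val
        rw [← h2, h5]
    · intro Y hY hcl
      have hi : ∀ (j : Fin K) (i : ℕ) (hi : i < K), rep (⟨i, hi⟩, j) ∈ Y ↔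
          rep (⟨0, hK⟩, j) ∈ Y := by
        intro j i
        induction i with
        | zero => intro _; exact Iff.rfl
        | succ i ih =>
          intro hi
          exact (hcl _ _ (Or.inl ((hE (⟨i, by omega⟩, j) (⟨i + 1, hi⟩, j)).2
            ⟨rfl, rfl⟩))).symm.trans (ih (by omega))
      have hj : ∀ (j : ℕ) (hj : j < K), rep (⟨0, hK⟩, ⟨j, hj⟩) ∈ Y ↔
          rep (⟨0, hK⟩, ⟨0, hK⟩) ∈ Y := by
        intro j
        induction j with
        | zero => intro _; exact Iff.rfl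
        | succ j ih =>
          intro hj
          exact (hcl _ _ (Or.inr ((hN (⟨0, hK⟩, ⟨j, by omega⟩) (⟨0, hK⟩, ⟨j + 1, hj⟩)).2
            ⟨rfl, rfl⟩))).symm.trans (ih (by omega))
      have hall : ∀ p, rep p ∈ Y ↔ rep (⟨0, hK⟩, ⟨0, hK⟩) ∈ Y := fun p =>
        (hi p.2 p.1.val p.1.isLt).trans (hj p.2.val p.2.isLt)
      obtain ⟨x, hxY, hx⟩ := hY
      obtain ⟨p, rfl⟩ := hrpe _ hx
      intro y hy
      obtain ⟨q, rfl⟩ := hrpe _ hy
      exact (hall q).2 ((hall p).1 hxY)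
    · intro x hx
      obtain ⟨p, rfl⟩ := hrpe _ hx
      rw [lab_some (hrep p), til_some t (hrep p)]
      exact ht1 p.1.val p.1.isLt p.2.val p.2.isLt
    · intro x y h
      obtain ⟨p, q, rfl, rfl, h1, h2⟩ := hE' x y h
      rw [til_some t (hrep p), til_some t (hrep q), ← h1, ← h2]
      exact ht2 _ _ (by rw [h1]; exact q.1.isLt) p.2.isLt
    · intro x y h
      obtain ⟨p, q, rfl, rfl, h1, h2⟩ := hN' x y h
      rw [til_some t (hrep p), til_some t (hrep q), ← h1, ← h2]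
      exact ht3 _ _ p.1.isLt (by rw [h2]; exact q.2.isLt)
  · intro u v
    rw [cm_iff hG (hπv u) v, hπv v]
    exact ⟨fun h => (Option.some.inj h).symm, fun h => by rw [h]⟩
  · intro p
    refine ⟨rep p, ⟨hrpp p, ?_⟩, ?_⟩
    · have h := hrep p
      rw [hπv] at h
      exact Option.some.inj h
    · rintro x ⟨hx, hxp⟩
      obtain ⟨q, rfl⟩ := hrpe _ hx
      have h := hrep q
      rw [hπv] at h
      rw [← hxp, Option.some.inj h]

end Pool.Agent.H94.MF
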